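import Pool.Agent.H58BE.KosOne

/-!
The converse: if `β_{1,3}(S/in(J_G)) = 0` then the labelling is closed; and `β_{1,3}(S/J_G) = 0`.
-/

set_option autoImplicit false
set_option linter.unusedSectionVars false

namespace Pool.Agent.H58BE

open Finset MvPolynomial Pool.Agent.TH47.BE

section gen

variable {σ : Type*} [Fintype σ] [LinearOrder σ] {K : Type*} [Field K]

lemma weight_eq (u : σ →₀ ℕ) : (Finsupp.weight (1 : σ → ℕ)) u = u.degree := by
  rw [Finsupp.degree_eq_weight_one]
  rfl

/-- the `K`-space of the `∑ x_v p_v` with `p_v ∈ I` homogeneous of degree two -/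
def Good (I : Ideal (MvPolynomial σ K)) : Submodule K (MvPolynomial σ K) where
  carrier := {F | ∃ p : σ → MvPolynomial σ K, (∀ v, p v ∈ I) ∧
    (∀ v u, coeff u (p v) ≠ 0 → u.degree = 2) ∧ F = ∑ v, X v * p v}
  add_mem' := by
    rintro F F' ⟨p, h1, h2, rfl⟩ ⟨p', h1', h2', rfl⟩
    refine ⟨fun v => p v + p' v, fun v => I.add_mem (h1 v) (h1' v), ?_, ?_⟩
    · intro v u hu
      rw [coeff_add] at hu
      by_cases h : coeff u (p v) = 0
      · rw [h, zero_add] at hu
        exact h2' v u hu
      · exact h2 v u h
    · rw [← Finset.sum_add_distrib]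
      exact Finset.sum_congr rfl fun v _ => by ring
  zero_mem' := ⟨fun _ => 0, fun _ => I.zero_mem, fun v u hu => absurd (coeff_zero u) hu, by simp⟩
  smul_mem' := by
    rintro c F ⟨p, h1, h2, rfl⟩
    refine ⟨fun v => c • p v, fun v => ?_, ?_, ?_⟩
    · beta_reduce
      rw [smul_eq_C_mul]
      exact I.mul_mem_left _ (h1 v)
    · intro v u hu
      rw [coeff_smul, smul_eq_mul] at hu
      exact h2 v u (right_ne_zero_of_mul hu)
    · rw [Finset.smul_sum]
      exact Finset.sum_congr rfl fun v _ => by rw [mul_smul_comm]

/-- the degree three part of an ideal generated by quadrics -/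
theorem hom3_mem (S : Set (MvPolynomial σ K)) (hS : ∀ g ∈ S, g.IsHomogeneous 2)
    {F : MvPolynomial σ K} (hF : F ∈ Ideal.span S) :
    homogeneousComponent 3 F ∈ Good (Ideal.span S) := by
  classical
  have key : ∀ a : MvPolynomial σ K, homogeneousComponent 3 (a * F) ∈ Good (Ideal.span S) := by
    refine Submodule.span_induction (p := fun F _ => ∀ a : MvPolynomial σ K,
      homogeneousComponent 3 (a * F) ∈ Good (Ideal.span S)) ?_ ?_ ?_ ?_ hF
    · intro g hg a
      rw [a.as_sum, Finset.sum_mul, map_sum]
      refine Submodule.sum_mem _ fun u _ => ?_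
      have h1 : (monomial u (coeff u a) * g).IsHomogeneous (u.degree + 2) :=
        (isHomogeneous_monomial _ rfl).mul (hS g hg)
      rw [homogeneousComponent_of_mem h1]
      split_ifs with h
      · have h2 : u.degree = 1 := by omega
        obtain ⟨v, rfl⟩ : ∃ v, u = Finsupp.single v 1 := by
          have h3 : u ≠ 0 := by
            rintro rfl
            simp at h2
          obtain ⟨v, hv⟩ := Finsupp.ne_iff.1 h3
          refine ⟨v, ?_⟩
          have h4 : Finsupp.single v 1 ≤ u := by
            rw [Finsupp.single_le_iff]
            rw [Finsupp.zero_apply] at hv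
            omega
          obtain ⟨t, ht⟩ := exists_add_of_le h4
          have h5 := congrArg Finsupp.degree ht
          rw [map_add, Finsupp.degree_single, h2] at h5
          have h6 : t = 0 := by
            rw [← Finsupp.degree_eq_zero_iff]
            omega
          rw [ht, h6, add_zero]
        refine ⟨fun w => if w = v then coeff (Finsupp.single v 1) a • g else 0, ?_, ?_, ?_⟩
        · intro w
          beta_reduce
          split_ifs
          · rw [smul_eq_C_mul]
            exact Ideal.mul_mem_left _ _ (Ideal.subset_span hg)
          · exact Ideal.zero_mem _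
        · intro w u hu
          beta_reduce at hu
          split_ifs at hu
          · rw [coeff_smul, smul_eq_mul] at hu
            have := hS g hg (right_ne_zero_of_mul hu)
            rwa [weight_eq] at this
          · exact absurd (coeff_zero u) hu
        · rw [Finset.sum_eq_single v]
          · beta_reduce
            rw [if_pos rfl, mul_smul_comm, smul_eq_C_mul, ← mul_assoc, C_mul_X_eq_monomial]
          · intro w _ hw
            beta_reduce
            rw [if_neg hw, mul_zero]
          · simp
      · exact Submodule.zero_mem _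
    · intro a
      rw [mul_zero, map_zero]
      exact Submodule.zero_mem _
    · intro F F' _ _ h h' a
      rw [mul_add, map_add]
      exact Submodule.add_mem _ (h a) (h' a)
    · intro b F _ h a
      rw [smul_eq_mul, ← mul_assoc]
      exact h (a * b)
  have := key 1
  rwa [one_mul] at this

theorem koszulD_empty (f : Finset σ → MvPolynomial σ K) :
    koszulD K f ∅ = ∑ v, X v * f {v} := by
  unfold koszulD
  rw [Finset.compl_empty]
  refine Finset.sum_congr rfl fun v _ => ?_
  simp

/-- For an ideal generated by quadrics `β_{1,3} = 0`. -/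
theorem betti_one_three (S : Set (MvPolynomial σ K)) (hS : ∀ g ∈ S, g.IsHomogeneous 2) :
    betti (Ideal.span S) 1 3 = 0 := by
  classical
  have hle : cycles (Ideal.span S) 1 3 ≤ boundaries (Ideal.span S) 1 3 := by
    intro f hf
    rw [mem_cycles] at hf
    obtain ⟨hf, hc⟩ := hf
    have h1 := hc ∅
    rw [koszulD_empty] at h1
    have h2 : homogeneousComponent 3 (∑ v, X v * f {v}) = ∑ v, X v * f {v} := by
      apply homogeneousComponent_eq_self
      apply IsHomogeneous.sum
      intro v _
      have h3 : (f {v}).IsHomogeneous 2 := by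
        intro u hu
        have := (hf {v} u hu).2
        rw [Finset.card_singleton] at this
        rw [weight_eq]
        omega
      have := (isHomogeneous_X K v).mul h3
      simpa using this
    have h3 := hom3_mem S hS h1
    rw [h2] at h3
    obtain ⟨p, hp1, hp2, hp3⟩ := h3
    set P : Finset σ → MvPolynomial σ K := ∑ v, sgl {v} (p v) with hP
    have hPv : ∀ v, P {v} = p v := by
      intro v
      rw [hP, Finset.sum_apply, Finset.sum_eq_single v]
      · rw [sgl_same]
      · intro w _ hw
        rw [sgl_ne]
        intro h'
        exact hw (Finset.singleton_injective h').symm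
      · simp
    have hPT : ∀ T, T.card ≠ 1 → P T = 0 := by
      intro T hT
      rw [hP, Finset.sum_apply]
      apply Finset.sum_eq_zero
      intro v _
      rw [sgl_ne]
      intro h'
      rw [h'] at hT
      simp at hT
    have hPc : P ∈ chains K 1 3 := by
      intro T u hu
      by_cases hT : T.card = 1
      · obtain ⟨v, rfl⟩ := Finset.card_eq_one.1 hT
        rw [hPv] at hu
        rw [Finset.card_singleton, hp2 v u hu]
        exact ⟨rfl, rfl⟩
      · rw [hPT T hT, coeff_zero] at hu
        exact absurd rfl hu
    have h4 : f - P ∈ (chains K 2 3).map (koszulL K) := by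
      apply exact_one (Submodule.sub_mem _ hf hPc)
      have : ∑ v, X v * (f - P) {v} = (∑ v, X v * f {v}) - ∑ v, X v * p v := by
        rw [← Finset.sum_sub_distrib]
        refine Finset.sum_congr rfl fun v _ => ?_
        rw [Pi.sub_apply, hPv]
        ring
      rw [this, hp3, sub_self]
    obtain ⟨g, hg, hgf⟩ := h4
    refine mem_boundaries.2 ⟨hf, g, hg, fun T => ?_⟩
    have h5 : f T - koszulD K g T = P T := by
      have := congrFun hgf T
      rw [koszulL_apply, Pi.sub_apply] at this
      rw [this]
      ring
    rw [h5]
    by_cases hT : T.card = 1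
    · obtain ⟨v, rfl⟩ := Finset.card_eq_one.1 hT
      rw [hPv]
      exact hp1 v
    · rw [hPT T hT]
      exact Ideal.zero_mem _
  unfold betti
  have htop : (boundaries (Ideal.span S) 1 3).submoduleOf (cycles (Ideal.span S) 1 3) = ⊤ := by
    rw [eq_top_iff]
    intro x _
    exact hle x.2
  rw [htop]
  have : Subsingleton (cycles (Ideal.span S) 1 3 ⧸
      (⊤ : Submodule K (cycles (Ideal.span S) 1 3))) := Submodule.Quotient.subsingleton_iff.2 rfl
  exact Module.finrank_zero_of_subsingleton

/-- If `β_{1,3}(S/I) = 0` then every monomial of degree three in `I` is `∑ x_v p_v`, `p_v ∈ I`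
of degree two. -/
theorem good_of_betti (I : Ideal (MvPolynomial σ K)) (h : betti I 1 3 = 0) (v : σ)
    (u : σ →₀ ℕ) (hu : u.degree = 2) (hm : monomial (u + Finsupp.single v 1) (1 : K) ∈ I) :
    monomial (u + Finsupp.single v 1) (1 : K) ∈ Good I := by
  classical
  have hfd : FiniteDimensional K (cycles I 1 3) := Submodule.finiteDimensional_of_le inf_le_left
  have hle : cycles I 1 3 ≤ boundaries I 1 3 := by
    unfold betti at h
    have h1 : Subsingleton (cycles I 1 3 ⧸ (boundaries I 1 3).submoduleOf (cycles I 1 3)) :=
      Module.finrank_zero_iff.1 h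
    rw [Submodule.Quotient.subsingleton_iff] at h1
    intro x hx
    have : (⟨x, hx⟩ : cycles I 1 3) ∈ (boundaries I 1 3).submoduleOf (cycles I 1 3) := by
      rw [h1]
      trivial
    exact this
  have hch : sgl {v} (monomial u (1 : K)) ∈ chains K 1 3 := by
    intro T u' hu'
    by_cases hT : T = {v}
    · subst hT
      rw [sgl_same, coeff_monomial] at hu'
      split_ifs at hu' with h3
      · subst h3
        rw [Finset.card_singleton, hu]
        exact ⟨rfl, rfl⟩
      · exact absurd rfl hu'
    · rw [sgl_ne hT, coeff_zero] at hu'
      exact absurd rfl hu'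
  have hsum : ∑ w, X w * sgl {v} (monomial u (1 : K)) {w} =
      monomial (u + Finsupp.single v 1) (1 : K) := by
    rw [Finset.sum_eq_single v]
    · rw [sgl_same, X_monomial]
    · intro w _ hw
      rw [sgl_ne, mul_zero]
      intro h'
      exact hw (Finset.singleton_injective h')
    · simp
  have hcy : sgl {v} (monomial u (1 : K)) ∈ cycles I 1 3 := by
    refine mem_cycles.2 ⟨hch, fun T => ?_⟩
    by_cases hT : T = ∅
    · subst hT
      rw [koszulD_empty, hsum]
      exact hm
    · have : koszulD K (sgl {v} (monomial u (1 : K))) T = 0 := by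
        unfold koszulD
        apply Finset.sum_eq_zero
        intro w hw
        rw [sgl_ne, mul_zero, mul_zero]
        intro h'
        apply hT
        have hwT : w ∉ T := by simpa using hw
        have h3 := congrArg Finset.card h'
        rw [Finset.card_insert_of_notMem hwT, Finset.card_singleton] at h3
        rw [← Finset.card_eq_zero]
        omega
      rw [this]
      exact I.zero_mem
  obtain ⟨_, g, hg, hgI⟩ := mem_boundaries.1 (hle hcy)
  refine ⟨fun w => sgl {v} (monomial u (1 : K)) {w} - koszulD K g {w}, fun w => hgI _, ?_, ?_⟩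
  · intro w u' hu'
    have h1 := Submodule.sub_mem _ hch (koszulD_chains hg)
    have := (h1 {w} u' hu').2
    rw [Finset.card_singleton] at this
    omega
  · have h0 : ∑ w, X w * koszulD K g {w} = 0 := by
      rw [← koszulD_empty (koszulD K g), koszulD_eq_kd, koszulD_eq_kd, kd_kd]
      rfl
    simp only [mul_sub]
    rw [Finset.sum_sub_distrib, h0, sub_zero, hsum]

end gen

end Pool.Agent.H58BE
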