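import Pool.Graph.R_pool_sql_team_seeded_ab47071d.TH47.BE.Final

/-!
Koszul homology in degree one: exactness of the Koszul complex of the polynomial ring, and the
vanishing of `β_{1,3}` for ideals generated by quadrics.
-/

set_option autoImplicit false
set_option linter.unusedSectionVars false

namespace Pool.Agent.H58BE

open Finset MvPolynomial Pool.Agent.TH47.BE

variable {σ : Type*} [Fintype σ] [LinearOrder σ] {K : Type*} [Field K]

/-- the chain with the single coefficient `p` at `e_T` -/
noncomputable def sgl (T : Finset σ) : MvPolynomial σ K →ₗ[K] (Finset σ → MvPolynomial σ K) :=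
  LinearMap.single K (fun _ : Finset σ => MvPolynomial σ K) T

lemma sgl_same (T : Finset σ) (p : MvPolynomial σ K) : sgl T p T = p := by
  unfold sgl
  rw [LinearMap.single_apply, Pi.single_eq_same]

lemma sgl_ne {T T' : Finset σ} (h : T' ≠ T) (p : MvPolynomial σ K) : sgl T p T' = 0 := by
  unfold sgl
  rw [LinearMap.single_apply, Pi.single_eq_of_ne h]

lemma X_monomial (x : σ) (t : σ →₀ ℕ) : (X x * monomial t (1 : K) : MvPolynomial σ K) =
    monomial (t + Finsupp.single x 1) 1 := by
  rw [X, monomial_mul, one_mul, add_comm]

lemma D_pair {v w : σ} (hwv : w < v) (t : σ →₀ ℕ) :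
    koszulD K (sgl {v, w} (monomial t (1 : K))) =
      sgl {v} (monomial (t + Finsupp.single w 1) (1 : K)) -
        sgl {w} (monomial (t + Finsupp.single v 1) (1 : K)) := by
  classical
  have hX : ∀ x : σ, (X x * monomial t (1 : K) : MvPolynomial σ K) =
      monomial (t + Finsupp.single x 1) 1 := fun x => X_monomial x t
  funext T
  unfold koszulD
  by_cases h1 : T = {v}
  · subst h1
    rw [Finset.sum_eq_single w]
    · have e : insert w ({v} : Finset σ) = {v, w} := Finset.pair_comm w v
      rw [e, sgl_same, Pi.sub_apply, sgl_same, sgl_ne (by
        intro h; exact hwv.ne' (Finset.singleton_injective h)), sub_zero, hX]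
      have : ({v} : Finset σ).filter (· < w) = ∅ := by
        ext x
        simp only [Finset.mem_filter, Finset.mem_singleton, Finset.notMem_empty, iff_false]
        rintro ⟨rfl, h⟩
        exact absurd h hwv.not_gt
      rw [this]
      simp
    · intro x hx hne
      rw [sgl_ne, mul_zero, mul_zero]
      intro h
      have : x ∈ ({v, w} : Finset σ) := by rw [← h]; exact Finset.mem_insert_self _ _
      rcases Finset.mem_insert.1 this with h' | h'
      · subst h'
        simp at hx
      · exact hne (Finset.mem_singleton.1 h')
    · intro h
      exfalso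
      apply h
      simp [hwv.ne]
  · by_cases h2 : T = {w}
    · subst h2
      rw [Finset.sum_eq_single v]
      · rw [sgl_same, Pi.sub_apply, sgl_same, sgl_ne (by
          intro h; exact hwv.ne (Finset.singleton_injective h)), zero_sub, hX]
        have : ({w} : Finset σ).filter (· < v) = {w} := by
          ext x
          simp only [Finset.mem_filter, Finset.mem_singleton]
          constructor
          · exact fun h => h.1
          · rintro rfl
            exact ⟨rfl, hwv⟩
        rw [this]
        simp
      · intro x hx hne
        rw [sgl_ne, mul_zero, mul_zero]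
        intro h
        have : x ∈ ({v, w} : Finset σ) := by rw [← h]; exact Finset.mem_insert_self _ _
        rcases Finset.mem_insert.1 this with h' | h'
        · exact hne h'
        · rw [Finset.mem_singleton.1 h'] at hx
          simp at hx
      · intro h
        exfalso
        apply h
        simp [hwv.ne']
    · rw [Pi.sub_apply, sgl_ne h1, sgl_ne h2, sub_zero]
      apply Finset.sum_eq_zero
      intro x hx
      rw [sgl_ne, mul_zero, mul_zero]
      intro h
      have hxT : x ∉ T := by simpa using hx
      have hT : T = ({v, w} : Finset σ).erase x := by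
        rw [← h, Finset.erase_insert hxT]
      have : x ∈ ({v, w} : Finset σ) := by rw [← h]; exact Finset.mem_insert_self _ _
      rcases Finset.mem_insert.1 this with h' | h'
      · apply h2
        rw [hT, h']
        ext y
        simp only [Finset.mem_erase, Finset.mem_insert, Finset.mem_singleton]
        constructor
        · rintro ⟨h3, h4 | h4⟩
          · exact absurd h4 h3
          · exact h4
        · rintro rfl
          exact ⟨hwv.ne, Or.inr rfl⟩
      · apply h1
        rw [hT, Finset.mem_singleton.1 h']
        ext y
        simp only [Finset.mem_erase, Finset.mem_insert, Finset.mem_singleton]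
        constructor
        · rintro ⟨h3, h4 | h4⟩
          · exact h4
          · exact absurd h4 h3
        · rintro rfl
          exact ⟨hwv.ne', Or.inl rfl⟩

variable (K) in
/-- normal form of the chains `e_v x^u` with `x_v x^u = x^m` -/
noncomputable def NF (m : σ →₀ ℕ) : Finset σ → MvPolynomial σ K :=
  open Classical in
  if h : m.support.Nonempty then
    sgl {m.support.min' h} (monomial (m - Finsupp.single (m.support.min' h) 1) 1) else 0

lemma claim1 (v : σ) (u : σ →₀ ℕ) :
    sgl {v} (monomial u (1 : K)) - NF K (u + Finsupp.single v 1) ∈
      (chains K 2 (u.degree + 1)).map (koszulL K) := by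
  classical
  have hv : v ∈ (u + Finsupp.single v 1).support := by
    rw [Finsupp.mem_support_iff, Finsupp.add_apply, Finsupp.single_eq_same]
    omega
  have hne : (u + Finsupp.single v 1).support.Nonempty := ⟨v, hv⟩
  unfold NF
  rw [dif_pos hne]
  have hwm : (u + Finsupp.single v 1).support.min' hne ∈ (u + Finsupp.single v 1).support :=
    Finset.min'_mem _ hne
  have hwv : (u + Finsupp.single v 1).support.min' hne ≤ v := Finset.min'_le _ v hv
  generalize (u + Finsupp.single v 1).support.min' hne = w at hwm hwv ⊢
  rcases hwv.eq_or_lt with h | h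
  · rw [h, add_tsub_cancel_right, sub_self]
    exact Submodule.zero_mem _
  · have huw : u w ≠ 0 := by
      rw [Finsupp.mem_support_iff, Finsupp.add_apply, Finsupp.single_eq_of_ne h.ne] at hwm
      omega
    obtain ⟨t, rfl⟩ : ∃ t, u = t + Finsupp.single w 1 := by
      refine ⟨u - Finsupp.single w 1, ?_⟩
      rw [tsub_add_cancel_of_le]
      rw [Finsupp.single_le_iff]
      omega
    refine ⟨sgl {v, w} (monomial t (1 : K)), ?_, ?_⟩
    · intro T u' hu'
      by_cases hT : T = {v, w}
      · subst hT
        rw [sgl_same, coeff_monomial] at hu'
        split_ifs at hu' with h3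
        · subst h3
          rw [Finset.card_pair h.ne', map_add, Finsupp.degree_single]
          exact ⟨rfl, by omega⟩
        · exact absurd rfl hu'
      · rw [sgl_ne hT, coeff_zero] at hu'
        exact absurd rfl hu'
    · rw [koszulL_apply, D_pair h]
      congr 2
      congr 1
      rw [add_right_comm, add_tsub_cancel_right]

variable (K) in
/-- the linear map with `x^m ↦ NF m` -/
noncomputable def LL : MvPolynomial σ K →ₗ[K] (Finset σ → MvPolynomial σ K) :=
  (basisMonomials σ K).constr K (NF K)

lemma LL_monomial (m : σ →₀ ℕ) : LL K (monomial m (1 : K)) = NF K m := by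
  have h : (monomial m (1 : K) : MvPolynomial σ K) = basisMonomials σ K m := by
    rw [coe_basisMonomials]
  rw [h]
  unfold LL
  rw [Module.Basis.constr_basis]

lemma claim2 (v : σ) {j : ℕ} (p : MvPolynomial σ K) (hp : ∀ u, coeff u p ≠ 0 → u.degree + 1 = j) :
    sgl {v} p - LL K (X v * p) ∈ (chains K 2 j).map (koszulL K) := by
  classical
  have e : sgl {v} p - LL K (X v * p) = (sgl {v} -
      (LL K).comp (LinearMap.mulLeft K (X v)) :
        MvPolynomial σ K →ₗ[K] (Finset σ → MvPolynomial σ K)) p := rfl
  rw [e]
  conv => arg 2; rw [p.as_sum]
  rw [map_sum]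
  refine Submodule.sum_mem _ fun u hu => ?_
  have h1 := hp u (mem_support_iff.1 hu)
  have h2 : (monomial u (coeff u p) : MvPolynomial σ K) = coeff u p • monomial u (1 : K) := by
    rw [smul_monomial, smul_eq_mul, mul_one]
  rw [h2, map_smul]
  refine Submodule.smul_mem _ _ ?_
  have h3 : (sgl {v} -
      (LL K).comp (LinearMap.mulLeft K (X v)) :
        MvPolynomial σ K →ₗ[K] (Finset σ → MvPolynomial σ K)) (monomial u (1 : K)) =
      sgl {v} (monomial u (1 : K)) - LL K (X v * monomial u (1 : K)) := rfl
  rw [h3, X_monomial, LL_monomial, ← h1]
  exact claim1 v u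

/-- exactness of the Koszul complex of the polynomial ring in homological degree one -/
theorem exact_one {j : ℕ} {f : Finset σ → MvPolynomial σ K} (hf : f ∈ chains K 1 j)
    (h : ∑ v, X v * f {v} = 0) : f ∈ (chains K 2 j).map (koszulL K) := by
  classical
  have h1 : f = ∑ v, sgl {v} (f {v}) := by
    funext T
    rw [Finset.sum_apply]
    by_cases hT : T.card = 1
    · obtain ⟨v, rfl⟩ := Finset.card_eq_one.1 hT
      rw [Finset.sum_eq_single v]
      · rw [sgl_same]
      · intro w _ hw
        rw [sgl_ne]
        intro h'
        exact hw (Finset.singleton_injective h').symm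
      · simp
    · have h2 : f T = 0 := by
        ext u
        by_contra hne
        exact hT (hf T u hne).1
      rw [h2]
      symm
      apply Finset.sum_eq_zero
      intro v _
      rw [sgl_ne]
      intro h'
      rw [h'] at hT
      simp at hT
  have h2 : f = ∑ v, (sgl {v} (f {v}) - LL K (X v * f {v})) := by
    rw [Finset.sum_sub_distrib, ← map_sum, h, map_zero, sub_zero]
    exact h1
  rw [h2]
  refine Submodule.sum_mem _ fun v _ => claim2 v _ fun u hu => ?_
  have := (hf {v} u hu).2
  rw [Finset.card_singleton] at this
  omega

end Pool.Agent.H58BE
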